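import Pool.Agent.SGP2.Cor

/-!
Clusters of nonzero digits in the signed digit expansions of algebraic irrational numbers.

The proof (`Pool/Agent/SGP`, `Pool/Agent/SGP2`): modulo `p^M` the cumulative sums of the digits are constant
under `x ↦ x / p^F` at all points `x` far from the small sumsets of the support (`P(f) = 0` for masses,
Frobenius, and a lifting which doubles the precision at the cost of boundedly many sumset steps, `SGP2/Dbl`:
`O(log M)` steps lead to `p^M`); so the visible clusters of nonzero digits are almost invariant under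
multiplication and division by `p^F`, for all primes `p` dividing `N (N-m) (N-2m)`. A simultaneous Padé
approximation of `log (N/(N-m))` and `log (N/(N-2m))` bounds `|u log (N/(N-m)) - w log (N/(N-2m))|` from below
by a power of `u + w`, hence a walk by `(N/(N-m))^F` and `((N-2m)/N)^F` visits more than `T` clusters.
-/

open Filter

namespace Pool.Agent.Results.MP_0308e6_nt.ClusterGaps

/-- Let `α` be a real algebraic irrational number, `b ≥ 2` and `B` natural numbers. There is a natural number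
`κ` such that for all large `n`: whenever `e k` are integers with `|e k| ≤ B` and `Σ e_k b^(-k) = α`, and
`l, L ≥ 1`, `T ≥ 2` satisfy `T^(κ (λ+1)) (L + log n) ≤ n`, `λ = ⌊log₂ l⌋`, and `T` intervals `[c_i, c_i + L)`
cover the positions `k ≤ n` of the nonzero digits, there are two nonzero digits at positions
`k, k' ∈ [n/κ, n]` with `l < k' - k < T^(κ (λ+1)) (L + log n)`. -/
theorem result (α : ℝ) (hα : IsAlgebraic ℚ α) (hirr : Irrational α) (b B : ℕ) (hb : 2 ≤ b) :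
    ∃ κ : ℕ, ∀ᶠ n : ℕ in atTop, ∀ e : ℕ → ℤ, (∀ k, |e k| ≤ B) →
      HasSum (fun k => (e k : ℝ) / (b : ℝ)^k) α →
      ∀ l L T : ℕ, 1 ≤ l → 1 ≤ L → 2 ≤ T →
      (T : ℝ)^(κ*(Nat.log 2 l + 1)) * (L + Real.log n) ≤ n →
      ∀ c : Fin T → ℕ, (∀ k ≤ n, e k ≠ 0 → ∃ i, c i ≤ k ∧ k < c i + L) →
      ∃ k k' : ℕ, n ≤ κ*k ∧ k + l < k' ∧ k' ≤ n ∧ e k ≠ 0 ∧ e k' ≠ 0 ∧
        ((k' : ℝ) - k) < (T : ℝ)^(κ*(Nat.log 2 l + 1)) * (L + Real.log n) :=
  Pool.Agent.SGP2.main α hα hirr b B hb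

/-- Corollary: for every algebraic irrational `α`, every base `b ≥ 2` and `0 < ε < 1` there is `c > 0` such
that for all large `n`: if at most `D` of the first `n` base `b` digits of `α` after the point differ from the
preceding digit, `D ≥ 2` and `log D ≤ c log n`, then there are two such changes at positions `k < k'` in
`[c n, n]` with `n^(c/log D) < k' - k < n^ε`. -/
theorem change_gap (α : ℝ) (hα : IsAlgebraic ℚ α) (hirr : Irrational α) (b : ℕ) (hb : 2 ≤ b)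
    (ε : ℝ) (hε0 : 0 < ε) (hε1 : ε < 1) :
    ∃ c : ℝ, 0 < c ∧ ∀ᶠ n : ℕ in atTop, ∀ D : ℕ, 2 ≤ D → Real.log D ≤ c * Real.log n →
      Finset.card {k ∈ Finset.Icc 1 n | ⌊α * (b:ℝ)^k⌋ % b ≠ ⌊α * (b:ℝ)^(k-1)⌋ % b} ≤ D →
      ∃ k k' : ℕ, c * n ≤ k ∧ k < k' ∧ k' ≤ n ∧
        ⌊α * (b:ℝ)^k⌋ % b ≠ ⌊α * (b:ℝ)^(k-1)⌋ % b ∧
        ⌊α * (b:ℝ)^k'⌋ % b ≠ ⌊α * (b:ℝ)^(k'-1)⌋ % b ∧
        Real.exp (c * Real.log n / Real.log D) < (k':ℝ) - k ∧ (k':ℝ) - k < (n:ℝ)^ε :=
  Pool.Agent.SGP2.change_gap α hα hirr b hb ε hε0 hε1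

/-- Corollary: for every algebraic irrational `α`, every base `b ≥ 2` and `0 < θ < 1` there is `c > 0` such
that for all large `n` there are two changes of the base `b` digits of `α` at positions `k < k'` in
`[n^θ, n]` with `k' - k < n^(1-c)`; so some complete block of equal digits inside `[n^θ, n]` is shorter than
`n^(1-c)`. -/
theorem short_run (α : ℝ) (hα : IsAlgebraic ℚ α) (hirr : Irrational α) (b : ℕ) (hb : 2 ≤ b)
    (θ : ℝ) (hθ0 : 0 < θ) (hθ1 : θ < 1) :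
    ∃ c : ℝ, 0 < c ∧ ∀ᶠ n : ℕ in atTop, ∃ k k' : ℕ, (n:ℝ)^θ ≤ k ∧ k < k' ∧ k' ≤ n ∧
      ⌊α * (b:ℝ)^k⌋ % b ≠ ⌊α * (b:ℝ)^(k-1)⌋ % b ∧
      ⌊α * (b:ℝ)^k'⌋ % b ≠ ⌊α * (b:ℝ)^(k'-1)⌋ % b ∧ (k':ℝ) - k < (n:ℝ)^(1-c) :=
  Pool.Agent.SGP2.short_run α hα hirr b hb θ hθ0 hθ1

end Pool.Agent.Results.MP_0308e6_nt.ClusterGaps
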