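import Pool.Agent.H33.CoverCore
import Pool.Agent.H33.OnesBase
import Pool.Agent.H33.ZerosBase

/-!
A cover inequality for the ones and for the zeros among the binary digits of `√2`, and the
inequality `N_d(n) * (number of digit changes) ≥ c n` for `d = 0, 1`.
-/

open Finset
open Pool.Agent.H33

namespace Pool.Agent.Results.MP_0308e6_nt.DigitCover

/-- the binary digit of `√2` at the position `k`; position `0` has the leading digit `1`, the
positions `k ≥ 1` are those after the point -/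
noncomputable def digit (k : ℕ) : ℕ := ⌊Real.sqrt 2 * (2 : ℝ) ^ k⌋₊ % 2

/-- the number of the positions `k ≤ n` in `[s, t]` with the digit `d` -/
noncomputable def count (d n s t : ℕ) : ℕ :=
  ((Finset.Icc s t).filter (fun k => k ≤ n ∧ digit k = d)).card

/-- the number of digit changes up to the position `n` -/
noncomputable def changes (n : ℕ) : ℕ :=
  ((Finset.Icc 1 n).filter (fun k => digit (k - 1) ≠ digit k)).card

/-- the positions `≤ n` with digit `d` -/
noncomputable def D (d n : ℕ) : Finset ℕ := (range (n+1)).filter (fun k => digit k = d)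

lemma mem_D {d n k : ℕ} : k ∈ D d n ↔ k ≤ n ∧ digit k = d := by
  unfold D
  rw [mem_filter, mem_range]
  constructor
  · rintro ⟨h1, h2⟩; exact ⟨by omega, h2⟩
  · rintro ⟨h1, h2⟩; exact ⟨by omega, h2⟩

lemma D_one (n : ℕ) : D 1 n = Ones.A n := rfl
lemma D_zero (n : ℕ) : D 0 n = Zeros.Z n := rfl

lemma card_D_le (d n : ℕ) : (D d n).card ≤ n + 1 := by
  have := card_filter_le (range (n+1)) (fun k => digit k = d)
  rw [card_range] at this
  exact this

section cover

set_option linter.unusedSectionVars false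

variable {ι : Type*} [Fintype ι] [DecidableEq ι]

lemma exists_idx {A : Finset ℕ} {a b : ι → ℕ} (hA : A.Nonempty)
    (h : ∀ k ∈ A, ∃ i, a i ≤ k ∧ k ≤ b i) :
    ∃ idx : ℕ → ι, ∀ x ∈ A, a (idx x) ≤ x ∧ x ≤ b (idx x) := by
  classical
  obtain ⟨x₀, hx₀⟩ := hA
  obtain ⟨i₀, _⟩ := h x₀ hx₀
  have hc : ∀ x, ∃ i, x ∈ A → a i ≤ x ∧ x ≤ b i := by
    intro x
    by_cases hx : x ∈ A
    · obtain ⟨i, hi⟩ := h x hx
      exact ⟨i, fun _ => hi⟩
    · exact ⟨i₀, fun h => absurd h hx⟩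
  choose idx hidx using hc
  exact ⟨idx, hidx⟩

lemma card_le_sum {A : Finset ℕ} {a b : ι → ℕ} {idx : ℕ → ι}
    (hidx : ∀ x ∈ A, a (idx x) ≤ x ∧ x ≤ b (idx x)) :
    A.card ≤ ∑ i, (Icc (a i) (b i)).card := by
  rw [card_eq_sum_card_fiberwise (f := idx) (t := univ) (fun _ _ => by simp)]
  apply sum_le_sum
  intro i _
  exact Cover.card_P_le hidx i

lemma P_le_count {d n : ℕ} {a b : ι → ℕ} {idx : ℕ → ι}
    (hidx : ∀ x ∈ D d n, a (idx x) ≤ x ∧ x ≤ b (idx x)) (i : ι) :
    (Cover.P (D d n) idx i).card ≤ count d n (a i) (b i) := by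
  unfold count
  apply card_le_card
  intro x hx
  have h1 := Cover.mem_P hidx hx
  unfold Cover.P at hx
  rw [mem_filter, mem_D] at hx
  rw [mem_filter, mem_Icc]
  exact ⟨h1, hx.1.1, hx.1.2⟩

lemma doubles_le (A : Finset ℕ) (n₀ n : ℕ) :
    ∑ R ∈ Ico n₀ n, (if ∃ x ∈ A, x + x = R then (1:ℝ) else 0) ≤ A.card := by
  rw [← sum_filter, sum_const, nsmul_eq_mul, mul_one]
  apply Nat.cast_le.mpr
  apply card_le_card_of_injOn (fun R => R / 2)
  · intro R hR
    rw [mem_coe, mem_filter, mem_Ico] at hR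
    obtain ⟨hR1, x, hx, hxR⟩ := hR
    have h2 : R / 2 = x := by omega
    simp only [h2]
    exact hx
  · intro R hR R' hR' hRR
    rw [mem_coe, mem_filter] at hR hR'
    obtain ⟨_, x, _, hxR⟩ := hR
    obtain ⟨_, y, _, hyR⟩ := hR'
    simp only at hRR
    omega

/-! ### ones -/

lemma tau_tail (n R : ℕ) (hR : R ≤ n) :
    (Ones.tau n R : ℝ) ≤ (1/2)^(n-R) * Ones.tau n n + Cover.Tr (Cover.rho (Ones.A n)) n R := by
  have h1 := Ones.tau_expand n R (n - R)
  rw [show R + (n - R) = n by omega] at h1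
  have h2 : ((2:ℝ)^(n-R)) * (Ones.tau n R : ℝ)
      = Ones.tau n n + ∑ i ∈ range (n-R), (Ones.rho n (R+i+1) : ℝ) * 2^(n-R-1-i) := by
    exact_mod_cast h1
  have h3 : (1/2:ℝ)^(n-R) * 2^(n-R) = 1 := by rw [← mul_pow]; norm_num
  have h4 : (Ones.tau n R : ℝ) = (1/2)^(n-R) * (((2:ℝ)^(n-R)) * (Ones.tau n R : ℝ)) := by
    rw [← mul_assoc, h3, one_mul]
  rw [h4, h2, mul_add]
  apply le_of_eq
  congr 1
  rw [mul_sum]
  unfold Cover.Tr
  apply sum_congr rfl
  intro u hu
  rw [mem_range] at hu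
  have h6 : (2:ℝ)^(n-R) = 2^(n-R-1-u) * 2^(u+1) := by rw [← pow_add]; congr 1; omega
  have h7 : (1/2:ℝ)^(n-R) * 2^(n-R-1-u) = (1/2)^(u+1) := by
    have h8 : (2:ℝ)^(u+1) * (1/2)^(u+1) = 1 := by rw [← mul_pow]; norm_num
    calc (1/2:ℝ)^(n-R) * 2^(n-R-1-u)
        = (1/2:ℝ)^(n-R) * 2^(n-R-1-u) * (2^(u+1) * (1/2)^(u+1)) := by rw [h8, mul_one]
      _ = (1/2:ℝ)^(n-R) * (2^(n-R-1-u) * 2^(u+1)) * (1/2)^(u+1) := by ring
      _ = (1/2)^(u+1) := by rw [← h6, h3, one_mul]
  have h9 : (Ones.rho n (R+u+1) : ℝ) = (Cover.rho (Ones.A n) (R+u+1) : ℝ) := rfl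
  calc (1/2:ℝ)^(n-R) * ((Ones.rho n (R+u+1) : ℝ) * 2^(n-R-1-u))
      = (Ones.rho n (R+u+1) : ℝ) * ((1/2:ℝ)^(n-R) * 2^(n-R-1-u)) := by ring
    _ = _ := by rw [h7, h9]

theorem ones_cover (n₀ n : ℕ) (a b : ι → ℕ)
    (hcover : ∀ k ∈ D 1 n, ∃ i, a i ≤ k ∧ k ≤ b i) :
    2 * n ≤ 2 * n₀ + ∑ i, ∑ j, (if n₀ < b i + b j then
          min (count 1 n (a i) (b i) * count 1 n (a j) (b j))
            ((Icc (a i) (b i)).card + (Icc (a j) (b j)).card + 1) else 0)
      + 9 * ∑ i, (Icc (a i) (b i)).card + 2 * Nat.log 2 (n+4) + 6 := by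
  obtain ⟨idx, hidx⟩ := exists_idx ⟨0, Ones.zero_mem_A n⟩ hcover
  rcases Nat.lt_or_ge n n₀ with hn | hn
  · omega
  have htau : (0:ℝ) ≤ Ones.tau n n := by
    have := Ones.tau_pos n n
    have h : (0:ℤ) ≤ Ones.tau n n := by omega
    exact_mod_cast h
  have htau2 : (Ones.tau n n : ℝ) ≤ 2^(Nat.log 2 (n+4) + 1) := by
    have hlt : n + 4 < 2^(Nat.log 2 (n+4) + 1) := Nat.lt_pow_succ_log_self (by norm_num) _
    have h1 := Ones.tau_le n
    have h2 : (Ones.A n).card ≤ n + 1 := card_D_le 1 n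
    have h3 : Ones.tau n n ≤ 2^(Nat.log 2 (n+4) + 1) := by
      have h4 : ((Ones.A n).card : ℤ) ≤ n + 1 := by exact_mod_cast h2
      have h5 : (n : ℤ) + 4 < 2^(Nat.log 2 (n+4) + 1) := by exact_mod_cast hlt
      linarith
    exact_mod_cast h3
  have h := Cover.core (Ones.A n) n₀ n hn idx a b hidx
    (fun R => if ∃ x ∈ Ones.A n, x + x = R then (1:ℝ) else 0) (fun R => (Ones.tau n R : ℝ))
    (fun R => by split_ifs <;> norm_num) _ htau htau2
    (fun R _ hR => tau_tail n R hR.le)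
    (fun R _ _ => by
      have h6 := Ones.tau_ge n R
      have h7 : ((2:ℤ):ℝ) ≤ ((Ones.tau n R + (if ∃ a ∈ Ones.A n, a + a = R then 1 else 0) : ℤ) : ℝ) := by
        exact_mod_cast h6
      push_cast at h7
      linarith)
  have h1 := doubles_le (Ones.A n) n₀ n
  have h2 : ((Ones.A n).card : ℝ) ≤ ((∑ i, (Icc (a i) (b i)).card : ℕ) : ℝ) :=
    Nat.cast_le.mpr (card_le_sum hidx)
  have h3 : ((∑ i, (if n₀ ≤ 2 * b i then (Icc (a i) (b i)).card else 0) : ℕ) : ℝ)
      ≤ ((∑ i, (Icc (a i) (b i)).card : ℕ) : ℝ) := by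
    apply Nat.cast_le.mpr
    apply sum_le_sum
    intro i _
    split_ifs
    · exact le_rfl
    · exact Nat.zero_le _
  have h4 : ((∑ i, ∑ j, (if n₀ < b i + b j then
          min ((Cover.P (Ones.A n) idx i).card * (Cover.P (Ones.A n) idx j).card)
            ((Icc (a i) (b i)).card + (Icc (a j) (b j)).card + 1) else 0) : ℕ) : ℝ)
      ≤ ((∑ i, ∑ j, (if n₀ < b i + b j then
          min (count 1 n (a i) (b i) * count 1 n (a j) (b j))
            ((Icc (a i) (b i)).card + (Icc (a j) (b j)).card + 1) else 0) : ℕ) : ℝ) := by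
    apply Nat.cast_le.mpr
    apply sum_le_sum
    intro i _
    apply sum_le_sum
    intro j _
    split_ifs
    · apply min_le_min _ le_rfl
      exact Nat.mul_le_mul (P_le_count (d := 1) hidx i) (P_le_count (d := 1) hidx j)
    · exact le_rfl
  have h5 : (2 * n : ℝ) ≤ 2 * n₀ + ((∑ i, ∑ j, (if n₀ < b i + b j then
          min (count 1 n (a i) (b i) * count 1 n (a j) (b j))
            ((Icc (a i) (b i)).card + (Icc (a j) (b j)).card + 1) else 0) : ℕ) : ℝ)
      + 9 * ((∑ i, (Icc (a i) (b i)).card : ℕ) : ℝ) + 2 * (Nat.log 2 (n+4) : ℝ) + 6 := by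
    have h6 : (0:ℝ) ≤ ((∑ i, (Icc (a i) (b i)).card : ℕ) : ℝ) := by positivity
    linarith
  exact_mod_cast h5

/-! ### zeros -/

lemma T_tail (n R : ℕ) (hR : R ≤ n) :
    (Zeros.T n R : ℝ) ≤ (1/2)^(n-R) * Zeros.T n n + Cover.Tr (Cover.rho (Zeros.Z n)) n R := by
  obtain ⟨L, hL⟩ : ∃ L, n = R + L := ⟨n - R, by omega⟩
  have key : ∀ L, (Zeros.T n R : ℝ) ≤ (1/2)^L * Zeros.T n (R+L)
      + ∑ u ∈ range L, (Cover.rho (Zeros.Z n) (R+u+1) : ℝ) * (1/2)^(u+1) := by
    intro L
    induction L with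
    | zero => simp
    | succ L ih =>
      rw [sum_range_succ]
      have h1 := Zeros.T_succ n (R+L)
      have h2 := Zeros.e_nonneg (R+L+1)
      have h3 : (2:ℝ) * Zeros.T n (R+L) ≤ Zeros.T n (R+L+1) + (Zeros.rho n (R+L+1) : ℝ) := by
        have h4 : 2 * Zeros.T n (R+L) ≤ Zeros.T n (R+L+1) + (Zeros.rho n (R+L+1) : ℤ) := by
          linarith
        exact_mod_cast h4
      have h5 : (Zeros.rho n (R+L+1) : ℝ) = (Cover.rho (Zeros.Z n) (R+L+1) : ℝ) := rfl
      rw [h5] at h3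
      have h6 : (0:ℝ) ≤ (1/2)^(L+1) := by positivity
      have h7 := mul_le_mul_of_nonneg_left h3 h6
      have h8 : (1/2:ℝ)^(L+1) * (2 * Zeros.T n (R+L)) = (1/2)^L * Zeros.T n (R+L) := by
        rw [pow_succ]; ring
      rw [h8] at h7
      rw [← add_assoc R L 1]
      linarith
  have h := key L
  unfold Cover.Tr
  have h1 : n - R = L := by omega
  rw [h1]
  rw [← hL] at h
  exact h

lemma parity_Z (n R : ℕ) (hR : 1 ≤ R) :
    (2:ℤ) ≤ ((if Zeros.T n R = 0 then 2 else 0) + (if ∃ x ∈ Zeros.Z n, x + x = R then 1 else 0)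
      + (if Zeros.X (R+2) % 2 = 0 then 1 else 0)) + Zeros.T n R := by
  have h0 := Zeros.T_nonneg n R
  by_cases h1 : Zeros.T n R = 0
  · rw [if_pos h1]
    split_ifs <;> omega
  · rw [if_neg h1]
    by_cases h2 : ∃ x ∈ Zeros.Z n, x + x = R
    · rw [if_pos h2]
      split_ifs <;> omega
    · rw [if_neg h2]
      by_cases h3 : Zeros.X (R+2) % 2 = 0
      · rw [if_pos h3]
        omega
      · rw [if_neg h3]
        push Not at h2
        obtain ⟨m, rfl⟩ : ∃ m, R = m + 1 := ⟨R - 1, by omega⟩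
        have h4 := Zeros.rho_parity n (m+1) h2
        have h5 := Zeros.T_succ n m
        have h6 : Zeros.e (m+1) = 0 := by
          unfold Zeros.e
          exact if_neg h3
        have h7 : ((Zeros.rho n (m+1) : ℕ) : ℤ) % 2 = 0 := by exact_mod_cast h4
        omega

theorem zeros_cover (n₀ n : ℕ) (a b : ι → ℕ)
    (hcover : ∀ k ∈ D 0 n, ∃ i, a i ≤ k ∧ k ≤ b i) :
    n ≤ 2 * n₀ + ∑ i, ∑ j, (if n₀ < b i + b j then
          min (count 0 n (a i) (b i) * count 0 n (a j) (b j))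
            ((Icc (a i) (b i)).card + (Icc (a j) (b j)).card + 1) else 0)
      + 9 * ∑ i, (Icc (a i) (b i)).card + 2 * Nat.log 2 (n+4) + 6 := by
  rcases Nat.lt_or_ge n 1 with hn1 | hn1
  · omega
  have h1Z : 1 ∈ D 0 n := by
    rw [D_zero, Zeros.mem_Z']
    exact ⟨hn1, Zeros.isZ_1⟩
  obtain ⟨idx, hidx⟩ := exists_idx ⟨1, h1Z⟩ hcover
  rcases Nat.lt_or_ge n n₀ with hn | hn
  · omega
  set n₁ := max n₀ 1 with hn₁
  have hn₁n : n₁ ≤ n := max_le hn hn1
  have hT0 : (0:ℝ) ≤ Zeros.T n n := by exact_mod_cast Zeros.T_nonneg n n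
  have hT2 : (Zeros.T n n : ℝ) ≤ 2^(Nat.log 2 (n+4) + 1) := by
    have hlt : n + 4 < 2^(Nat.log 2 (n+4) + 1) := Nat.lt_pow_succ_log_self (by norm_num) _
    have h1 := Zeros.T_le n
    have h2 : (Zeros.Z n).card ≤ n + 1 := card_D_le 0 n
    have h3 : Zeros.T n n ≤ 2^(Nat.log 2 (n+4) + 1) := by
      have h4 : ((Zeros.Z n).card : ℤ) ≤ n + 1 := by exact_mod_cast h2
      have h5 : (n : ℤ) + 4 < 2^(Nat.log 2 (n+4) + 1) := by exact_mod_cast hlt
      linarith
    exact_mod_cast h3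
  have h := Cover.core (Zeros.Z n) n₁ n hn₁n idx a b hidx
    (fun R => ((if Zeros.T n R = 0 then (2:ℝ) else 0)
      + (if ∃ x ∈ Zeros.Z n, x + x = R then (1:ℝ) else 0))
      + (if Zeros.X (R+2) % 2 = 0 then (1:ℝ) else 0)) (fun R => (Zeros.T n R : ℝ))
    (fun R => by split_ifs <;> norm_num) _ hT0 hT2
    (fun R _ hR => T_tail n R hR.le)
    (fun R hR _ => by
      have h6 := parity_Z n R (le_trans (le_max_right _ _) hR)
      have h7 : ((2:ℤ):ℝ) ≤ ((((if Zeros.T n R = 0 then 2 else 0)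
        + (if ∃ x ∈ Zeros.Z n, x + x = R then 1 else 0)
        + (if Zeros.X (R+2) % 2 = 0 then 1 else 0)) + Zeros.T n R : ℤ) : ℝ) := by
        exact_mod_cast h6
      push_cast at h7
      linarith)
  rw [sum_add_distrib, sum_add_distrib] at h
  have h1 := doubles_le (Zeros.Z n) n₁ n
  have hlen : (Zeros.Z n).card ≤ ∑ i, (Icc (a i) (b i)).card := card_le_sum hidx
  have hZ1 : (Zeros.Z (n+1)).card ≤ (Zeros.Z n).card + 1 := by
    have h := Zeros.Z_succ_sum n (fun _ => (1:ℕ))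
    rw [sum_const, sum_const, smul_eq_mul, smul_eq_mul, mul_one, mul_one] at h
    split_ifs at h <;> omega
  have hZ2 := Zeros.Z_mono (show n / 2 ≤ n by omega)
  have ho := Zeros.o_bound n n le_rfl
  unfold Zeros.B at ho
  have hA : ∑ R ∈ Ico n₁ n, (if Zeros.T n R = 0 then (2:ℝ) else 0) ≤ 2 * (Zeros.o n n : ℝ) := by
    rw [← sum_filter, sum_const, nsmul_eq_mul, mul_comm]
    apply mul_le_mul_of_nonneg_left _ (by norm_num)
    apply Nat.cast_le.mpr
    unfold Zeros.o
    apply card_le_card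
    intro R hR
    rw [mem_filter, mem_Ico] at hR
    rw [mem_filter, mem_Icc]
    have := le_max_right n₀ 1
    exact ⟨⟨by omega, by omega⟩, hR.2⟩
  have hB : ∑ R ∈ Ico n₁ n, (if Zeros.X (R+2) % 2 = 0 then (1:ℝ) else 0)
      ≤ ((Zeros.Z (n+1)).card : ℝ) := by
    rw [← sum_filter, sum_const, nsmul_eq_mul, mul_one]
    apply Nat.cast_le.mpr
    apply card_le_card_of_injOn (fun m => m + 2)
    · intro m hm
      rw [mem_coe, mem_filter, mem_Ico] at hm
      rw [mem_coe, Zeros.mem_Z]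
      simp only
      exact ⟨by omega, hm.2⟩
    · intro a _ b _ hab
      simp only at hab
      omega
  have h3 : (∑ i, (if n₁ ≤ 2 * b i then (Icc (a i) (b i)).card else 0))
      ≤ ∑ i, (Icc (a i) (b i)).card := by
    apply sum_le_sum
    intro i _
    split_ifs
    · exact le_rfl
    · exact Nat.zero_le _
  have h4 : (∑ i, ∑ j, (if n₁ < b i + b j then
          min ((Cover.P (Zeros.Z n) idx i).card * (Cover.P (Zeros.Z n) idx j).card)
            ((Icc (a i) (b i)).card + (Icc (a j) (b j)).card + 1) else 0))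
      ≤ ∑ i, ∑ j, (if n₀ < b i + b j then
          min (count 0 n (a i) (b i) * count 0 n (a j) (b j))
            ((Icc (a i) (b i)).card + (Icc (a j) (b j)).card + 1) else 0) := by
    apply sum_le_sum
    intro i _
    apply sum_le_sum
    intro j _
    by_cases h5 : n₁ < b i + b j
    · have h6 : n₀ < b i + b j := lt_of_le_of_lt (le_max_left _ _) h5
      rw [if_pos h5, if_pos h6]
      apply min_le_min _ le_rfl
      exact Nat.mul_le_mul (P_le_count (d := 0) hidx i) (P_le_count (d := 0) hidx j)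
    · rw [if_neg h5]
      exact Nat.zero_le _
  have hn₁' : n₁ ≤ n₀ + 1 := max_le (by omega) (by omega)
  -- everything in the reals
  have ho' : (2:ℝ) * (Zeros.o n n : ℝ) ≤ n + (2 * ((Zeros.Z n).card : ℝ)
      + ((Zeros.Z (n+1)).card : ℝ) + 2 * ((Zeros.Z (n/2)).card : ℝ)) := by exact_mod_cast ho
  have hlen' : ((Zeros.Z n).card : ℝ) ≤ ((∑ i, (Icc (a i) (b i)).card : ℕ) : ℝ) :=
    Nat.cast_le.mpr hlen
  have hZ1' : ((Zeros.Z (n+1)).card : ℝ) ≤ ((Zeros.Z n).card : ℝ) + 1 := by exact_mod_cast hZ1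
  have hZ2' : ((Zeros.Z (n/2)).card : ℝ) ≤ ((Zeros.Z n).card : ℝ) := Nat.cast_le.mpr hZ2
  have h3' : ((∑ i, (if n₁ ≤ 2 * b i then (Icc (a i) (b i)).card else 0) : ℕ) : ℝ)
      ≤ ((∑ i, (Icc (a i) (b i)).card : ℕ) : ℝ) := Nat.cast_le.mpr h3
  have h4' := (Nat.cast_le (α := ℝ)).mpr h4
  have hn₁'' : (n₁ : ℝ) ≤ n₀ + 1 := by exact_mod_cast hn₁'
  have h5 : (n : ℝ) ≤ 2 * n₀ + ((∑ i, ∑ j, (if n₀ < b i + b j then
          min (count 0 n (a i) (b i) * count 0 n (a j) (b j))
            ((Icc (a i) (b i)).card + (Icc (a j) (b j)).card + 1) else 0) : ℕ) : ℝ)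
      + 9 * ((∑ i, (Icc (a i) (b i)).card : ℕ) : ℝ) + 2 * (Nat.log 2 (n+4) : ℝ) + 6 := by
    linarith
  exact_mod_cast h5

end cover

/-! ### runs -/

/-- the first positions of the runs of the digit `d` -/
noncomputable def starts (d n : ℕ) : Finset ℕ :=
  (D d n).filter (fun s => s = 0 ∨ s - 1 ∉ D d n)

open Classical in
/-- the last position of the run starting at `s` -/
noncomputable def last (d n s : ℕ) : ℕ :=
  Nat.findGreatest (fun t => s ≤ t ∧ ∀ k, s ≤ k → k ≤ t → k ∈ D d n) n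

lemma last_spec {d n s : ℕ} (hs : s ∈ D d n) :
    s ≤ last d n s ∧ ∀ k, s ≤ k → k ≤ last d n s → k ∈ D d n := by
  classical
  unfold last
  refine Nat.findGreatest_spec (P := fun t => s ≤ t ∧ ∀ k, s ≤ k → k ≤ t → k ∈ D d n)
    (mem_D.mp hs).1 ⟨le_rfl, ?_⟩
  intro k h1 h2
  have : k = s := by omega
  rw [this]
  exact hs

lemma le_last {d n s t : ℕ} (hst : s ≤ t) (htn : t ≤ n)
    (h : ∀ k, s ≤ k → k ≤ t → k ∈ D d n) : t ≤ last d n s := by
  classical
  unfold last
  exact Nat.le_findGreatest htn ⟨hst, h⟩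

lemma starts_cover {d n k : ℕ} (hk : k ∈ D d n) :
    ∃ s ∈ starts d n, s ≤ k ∧ k ≤ last d n s := by
  classical
  have hex : ∃ s, s ≤ k ∧ ∀ j, s ≤ j → j ≤ k → j ∈ D d n :=
    ⟨k, le_rfl, fun j h1 h2 => by
      have : j = k := by omega
      rw [this]; exact hk⟩
  obtain ⟨h1, h2⟩ := Nat.find_spec hex
  refine ⟨Nat.find hex, ?_, h1, le_last h1 (mem_D.mp hk).1 h2⟩
  unfold starts
  rw [mem_filter]
  refine ⟨h2 _ le_rfl h1, ?_⟩
  by_contra hcon
  push Not at hcon
  obtain ⟨h3, h4⟩ := hcon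
  have h5 := Nat.find_min hex (m := Nat.find hex - 1) (by omega)
  apply h5
  refine ⟨by omega, ?_⟩
  intro j hj1 hj2
  by_cases h6 : j = Nat.find hex - 1
  · rw [h6]; exact h4
  · exact h2 j (by omega) hj2

lemma sum_starts (d n : ℕ) :
    ∑ s ∈ starts d n, (Icc s (last d n s)).card ≤ (D d n).card := by
  rw [← card_biUnion]
  · apply card_le_card
    intro k hk
    rw [mem_biUnion] at hk
    obtain ⟨s, hs, hk⟩ := hk
    unfold starts at hs
    rw [mem_filter] at hs
    rw [mem_Icc] at hk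
    exact (last_spec hs.1).2 k hk.1 hk.2
  · have key : ∀ s ∈ starts d n, ∀ s' ∈ starts d n, s < s' →
        Disjoint (Icc s (last d n s)) (Icc s' (last d n s')) := by
      intro s hs s' hs' hss
      rw [disjoint_left]
      intro k hk hk'
      rw [mem_Icc] at hk hk'
      unfold starts at hs hs'
      rw [mem_filter] at hs hs'
      rcases hs'.2 with h | h
      · omega
      · exact h ((last_spec hs.1).2 (s' - 1) (by omega) (by omega))
    intro s hs s' hs' hne
    rcases Nat.lt_or_gt_of_ne hne with h | h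
    · exact key s hs s' hs' h
    · exact (key s' hs' s hs h).symm

lemma card_starts (d n : ℕ) : (starts d n).card ≤ changes n + 1 := by
  have h : starts d n ⊆ insert 0 ((Icc 1 n).filter (fun k => digit (k - 1) ≠ digit k)) := by
    intro s hs
    unfold starts at hs
    rw [mem_filter, mem_D] at hs
    rw [mem_insert, mem_filter, mem_Icc]
    by_cases h0 : s = 0
    · exact Or.inl h0
    · right
      refine ⟨⟨by omega, hs.1.1⟩, ?_⟩
      intro h1
      rcases hs.2 with h2 | h2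
      · exact h0 h2
      · apply h2
        rw [mem_D]
        exact ⟨by omega, by rw [h1]; exact hs.1.2⟩
  have h1 := card_le_card h
  have h2 := card_insert_le 0 ((Icc 1 n).filter (fun k => digit (k - 1) ≠ digit k))
  unfold changes
  omega

lemma count_all (d n : ℕ) : count d n 0 n = (D d n).card := by
  unfold count
  congr 1
  ext k
  rw [mem_filter, mem_Icc, mem_D]
  constructor
  · rintro ⟨_, h⟩; exact h
  · rintro h; exact ⟨⟨Nat.zero_le _, h.1⟩, h⟩

/-- both covers for general index types -/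
lemma cover_gen {ι : Type*} [Fintype ι] [DecidableEq ι] (d : ℕ) (hd : d ≤ 1) (n₀ n : ℕ)
    (a b : ι → ℕ) (hcover : ∀ k ∈ D d n, ∃ i, a i ≤ k ∧ k ≤ b i) :
    (1 + d) * n ≤ 2 * n₀ + ∑ i, ∑ j, (if n₀ < b i + b j then
          min (count d n (a i) (b i) * count d n (a j) (b j))
            ((Icc (a i) (b i)).card + (Icc (a j) (b j)).card + 1) else 0)
      + 9 * ∑ i, (Icc (a i) (b i)).card + 2 * Nat.log 2 (n+4) + 6 := by
  have h : d = 0 ∨ d = 1 := by omega
  rcases h with rfl | rfl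
  · rw [add_zero, one_mul]
    exact zeros_cover n₀ n a b hcover
  · exact ones_cover n₀ n a b hcover

theorem product (d : ℕ) (hd : d ≤ 1) (n : ℕ) :
    (1 + d) * n ≤ 3 * count d n 0 n * (changes n + 4) + 2 * Nat.log 2 (n+4) + 6 := by
  have h := cover_gen (ι := {s // s ∈ starts d n}) d hd 0 n (fun s => s.1)
    (fun s => last d n s.1) (fun k hk => by
      obtain ⟨s, hs, h⟩ := starts_cover hk
      exact ⟨⟨s, hs⟩, h⟩)
  set f : {s // s ∈ starts d n} → ℕ := fun s => (Icc s.1 (last d n s.1)).card with hf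
  have h1 : ∑ i, f i ≤ (D d n).card := by
    rw [hf]
    have := sum_starts d n
    rw [← sum_coe_sort (starts d n) (fun s => (Icc s (last d n s)).card)] at this
    exact this
  have h2 : ∑ i : {s // s ∈ starts d n}, ∑ j : {s // s ∈ starts d n},
      (if 0 < last d n i.1 + last d n j.1 then
          min (count d n i.1 (last d n i.1) * count d n j.1 (last d n j.1))
            ((Icc i.1 (last d n i.1)).card + (Icc j.1 (last d n j.1)).card + 1) else 0)
      ≤ ∑ i : {s // s ∈ starts d n}, ∑ j : {s // s ∈ starts d n}, (f i + f j + 1) := by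
    apply sum_le_sum
    intro i _
    apply sum_le_sum
    intro j _
    split_ifs
    · exact min_le_right _ _
    · exact Nat.zero_le _
  have hM : Fintype.card {s // s ∈ starts d n} = (starts d n).card := Fintype.card_coe _
  have h3 : ∑ i : {s // s ∈ starts d n}, ∑ j : {s // s ∈ starts d n}, (f i + f j + 1)
      = 2 * ((starts d n).card * ∑ i, f i) + (starts d n).card * (starts d n).card := by
    simp only [sum_add_distrib, sum_const, card_univ, hM, smul_eq_mul, mul_one]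
    rw [← mul_sum]
    ring
  have h4 := card_starts d n
  have h5 : (starts d n).card ≤ (D d n).card := card_le_card (filter_subset _ _)
  rw [count_all]
  rw [h3] at h2
  have h6 : (1 + d) * n ≤ 2 * ((starts d n).card * ∑ i, f i)
      + (starts d n).card * (starts d n).card + 9 * ∑ i, f i + 2 * Nat.log 2 (n+4) + 6 := by
    refine h.trans ?_
    rw [mul_zero, zero_add]
    gcongr
  set N := (D d n).card with hN
  set S := ∑ i, f i with hS
  set B := (starts d n).card with hB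
  have h7 : B * S ≤ (changes n + 1) * N := Nat.mul_le_mul h4 h1
  have h8 : B * B ≤ (changes n + 1) * N := Nat.mul_le_mul h4 h5
  calc (1 + d) * n ≤ 2 * (B * S) + B * B + 9 * S + 2 * Nat.log 2 (n+4) + 6 := h6
    _ ≤ 2 * ((changes n + 1) * N) + (changes n + 1) * N + 9 * N + 2 * Nat.log 2 (n+4) + 6 := by
        gcongr
    _ = 3 * N * (changes n + 4) + 2 * Nat.log 2 (n+4) + 6 := by ring

/-- **Theorem.** Let `d` be `0` or `1`.
(1) Let the intervals `[a_i, b_i]`, `i < M`, of integers cover all positions `k ≤ n` of the digit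
`d` in the binary expansion of `√2`. Then for every `n₀`
`(1+d) n ≤ 2 n₀ + ∑ min (N_i N_j) (|I_i| + |I_j| + 1) + 9 ∑ |I_i| + 2 ⌊log_2 (n+4)⌋ + 6`,
the first sum over the pairs `(i,j)` with `b_i + b_j > n₀`, `N_i` the number of digits `d` in
`I_i`.
(2) `(1+d) n ≤ 3 N_d(n) (D(n) + 4) + 2 ⌊log_2 (n+4)⌋ + 6`, where `N_d(n)` is the number of digits
`d` and `D(n)` the number of digit changes up to the position `n`. -/
theorem result : ∀ d : ℕ, d ≤ 1 →
    (∀ (n₀ n M : ℕ) (a b : Fin M → ℕ),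
      (∀ k ≤ n, digit k = d → ∃ i, a i ≤ k ∧ k ≤ b i) →
      (1 + d) * n ≤ 2 * n₀
        + ∑ i, ∑ j, (if n₀ < b i + b j then
            min (count d n (a i) (b i) * count d n (a j) (b j))
              ((Finset.Icc (a i) (b i)).card + (Finset.Icc (a j) (b j)).card + 1) else 0)
        + 9 * ∑ i, (Finset.Icc (a i) (b i)).card + 2 * Nat.log 2 (n + 4) + 6) ∧
    (∀ n : ℕ, (1 + d) * n
      ≤ 3 * count d n 0 n * (changes n + 4) + 2 * Nat.log 2 (n + 4) + 6) := by
  intro d hd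
  refine ⟨?_, product d hd⟩
  intro n₀ n M a b hcover
  apply cover_gen d hd n₀ n a b
  intro k hk
  rw [mem_D] at hk
  exact hcover k hk.1 hk.2

end Pool.Agent.Results.MP_0308e6_nt.DigitCover
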