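import Mathlib
import Pool.Agent.H49.NearBasisFour

/-!
Power lower bounds for equal adjacent binary digits of `√2`, and for the deviations of these digits
from every non-constant periodic pattern.
-/

namespace Pool.Agent.Results.MP_0308e6_nt.EqualAdjacentDigits

open Finset

/-- the `k`-th binary digit of `√2` (`k = 0` is the leading digit `1`) -/
noncomputable def digit (k : ℕ) : ℕ := ⌊Real.sqrt 2 * (2:ℝ)^k⌋₊ % 2

open Classical in
/-- the number of `1 ≤ k ≤ n` with property `P` -/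
noncomputable def count (P : ℕ → Prop) (n : ℕ) : ℕ := #{k ∈ Icc 1 n | P k}

/-- the denominator of the number `0.(w_0 ... w_{m-1})^∞` in base 2 -/
def den (w : ℕ → ℕ) (m : ℕ) : ℕ := (2^m - 1) / Nat.gcd (2^m - 1) (∑ j ∈ range m, w j * 2^(m-1-j))

theorem result :
    -- (1) equal adjacent digits
    (∀ t : ℕ, ∃ x y z : ℕ, (x = 0 ∨ 1 ≤ x ∧ digit x = digit (x+1)) ∧
      (y = 0 ∨ 1 ≤ y ∧ digit y = digit (y+1)) ∧ (z = 0 ∨ 1 ≤ z ∧ digit z = digit (z+1)) ∧
      t < x + y + z ∧ x + y + z ≤ t + Nat.log 2 (t+1) + 5) ∧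
    (∀ n s : ℕ, s = count (fun k => digit k = digit (k+1)) n →
      n ≤ s * (s+1) * (s+8) + Nat.log 2 (n+1) + 4) ∧
    -- (2) all non-constant periodic words
    (∀ (m : ℕ) (w : ℕ → ℕ), 1 ≤ m → (∀ i, w i < 2) → (∀ i, w (i+m) = w i) → (∃ i, w i ≠ w (i+1)) →
      (∃ p, p.Prime ∧ p ∣ den w m) ∧
      ∀ p, p.Prime → p ∣ den w m →
        (∃ c : ℕ, ∀ t : ℕ, ∃ L : List ℕ, L.length = p ∧
          (∀ x ∈ L, x = 0 ∨ 1 ≤ x ∧ ¬ ∃ i, ∀ j ≤ m, digit (x+j) = w (i+j)) ∧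
          t < L.sum ∧ L.sum ≤ t + c * (Nat.log 2 (t+1) + 1)) ∧
        (∃ c : ℕ, ∀ n : ℕ, n ≤ c * (count (fun k => ¬ ∃ i, ∀ j ≤ m, digit (k+j) = w (i+j)) n + 1)^p)) ∧
    -- (3) non-constant blocks versus `m`-step changes
    (∀ m : ℕ, 1 ≤ m → ∃ C : ℕ, ∀ n : ℕ, count (fun k => ∃ j < m, digit (k+j) ≠ digit k) n ≤
      C * (count (fun k => digit k ≠ digit (k+m)) (C*(n+1)) + 1)^(2^m - 1)) := by
  classical
  refine ⟨?_, ?_, ?_, ?_⟩
  · intro t
    obtain ⟨L, h1, h2, h3, h4⟩ := Pool.Agent.H49.NB.equal_near_basis t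
    obtain ⟨x, y, z, rfl⟩ := List.length_eq_three.mp h1
    have hx := h2 x (by simp)
    have hy := h2 y (by simp)
    have hz := h2 z (by simp)
    simp only [List.sum_cons, List.sum_nil] at h3 h4
    exact ⟨x, y, z, hx, hy, hz, by omega, by omega⟩
  · intro n s hs
    have h := Pool.Agent.H49.NB.equal_count n
    have h2 : s = #{k ∈ Icc 1 n | Pool.Agent.H49.NB.dg k = Pool.Agent.H49.NB.dg (k+1)} := by
      rw [hs]
      unfold count
      congr
    rw [h2]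
    exact h
  · intro m w hm hw hper hne
    have hden : den w m = (2^m-1) / Nat.gcd (2^m-1) (Pool.Agent.H49.NB.val w m) := by
      rw [Pool.Agent.H49.NB.val_sum]; rfl
    rw [hden]
    refine ⟨Pool.Agent.H49.NB.words_prime m hm w hw hper hne, ?_⟩
    intro p hp hpd
    refine ⟨Pool.Agent.H49.NB.words_near_basis m hm w hper p hp hpd, ?_⟩
    obtain ⟨C, hC⟩ := Pool.Agent.H49.NB.words_count m hm w hper p hp hpd
      (fun k => ¬ ∃ i, ∀ j ≤ m, Pool.Agent.H49.NB.dg (k+j) = w (i+j)) (fun x => Iff.rfl)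
    refine ⟨C, fun n => ?_⟩
    have h := hC n
    have h1 : count (fun k => ¬ ∃ i, ∀ j ≤ m, digit (k+j) = w (i+j)) n
        = #{k ∈ Icc 1 n | ¬ ∃ i, ∀ j ≤ m, Pool.Agent.H49.NB.dg (k+j) = w (i+j)} := by
      unfold count
      congr
    rw [h1]
    exact h
  · intro m hm
    obtain ⟨C, hC⟩ := Pool.Agent.H49.NB.blocks_bound m hm
    refine ⟨C, fun n => ?_⟩
    have h := hC n
    have h1 : count (fun k => ∃ j < m, digit (k+j) ≠ digit k) n
        = #{k ∈ Icc 1 n | ∃ j < m, Pool.Agent.H49.NB.dg (k+j) ≠ Pool.Agent.H49.NB.dg k} := by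
      unfold count
      congr
    have h2 : count (fun k => digit k ≠ digit (k+m)) (C*(n+1)) = Pool.Agent.H49.NB.Dm m (C*(n+1)) := by
      unfold count Pool.Agent.H49.NB.Dm
      congr
    rw [h1, h2]
    exact h

end Pool.Agent.Results.MP_0308e6_nt.EqualAdjacentDigits
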