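import Mathlib
import Pool.Agent.Chain.Ring

open Finset

namespace Pool.Agent.Results.MP_0308e6_nt.PiecewisePeriodic

/-- Let `α` be a real algebraic irrational number and `b ≥ 2`. There are arbitrarily large primes `p` and
constants `C` such that for all large `n` and all `L`, `K` with
`(L+1) exp((log n)^δ + C K log log n) ≤ n`: if `Q(ξ₁,…,ξᵣ) = q α`, where `Q` is an integer polynomial of
degree `≤ D` with coefficients `≤ B b^L`, `1 ≤ q ≤ B b^L`, `p^(K+1) ∤ q`, and `e i` is an expansion of `ξ i`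
in base `b` with integer digits `|e i k| ≤ B (k+1)^B`, then for any `(log n)^A` cut points in `[0,n]`
there is an interval `[a, a')` between consecutive cut points, longer than `L`, on which some `e i` is not
periodic with any period `m ≤ L+1` with `p^(K+1) ∤ m`. (For example `r = 1`, `Q = X`, `q = 1`, `b = 2`,
`e` the binary digits of `√2`; `K = 0` covers all bounded periods, and `K` of order `(log n)^κ`, `κ < δ`,
covers all periods up to `exp((log n)^κ)`.) -/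
theorem result (b : ℕ) (hb : 2 ≤ b) (α : ℝ) (hα : IsAlgebraic ℚ α) (hirr : Irrational α)
    (r D B A N : ℕ) (δ : ℝ) (hδ : 0 < δ) :
    ∃ p : ℕ, p.Prime ∧ N < p ∧ ∃ C : ℝ, ∀ᶠ n : ℕ in Filter.atTop, ∀ L K : ℕ,
      ((L:ℝ)+1) * Real.exp ((Real.log n)^δ + C * K * Real.log (Real.log n)) ≤ n →
      ∀ (q : ℕ) (Q : MvPolynomial (Fin r) ℤ) (ξ : Fin r → ℝ) (e : Fin r → ℕ → ℤ),
      1 ≤ q → q ≤ B * b^L → ¬ p^(K+1) ∣ q →
      Q.totalDegree ≤ D → (∀ s, |Q.coeff s| ≤ B * (b:ℤ)^L) →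
      MvPolynomial.aeval ξ Q = q * α →
      (∀ i, ∀ k : ℕ, |e i k| ≤ B * ((k:ℤ)+1)^B) →
      (∀ i, HasSum (fun k => (e i k : ℝ) / (b:ℝ)^k) (ξ i)) →
      ∀ S : Finset ℕ, (S.card : ℝ) ≤ (Real.log n)^A →
      ∃ a a' : ℕ, a + L < a' ∧ a' ≤ n ∧ (∀ s ∈ S, s ≤ a ∨ a' ≤ s) ∧
        ∃ i, ∀ m : ℕ, 1 ≤ m → m ≤ L + 1 → ¬ p^(K+1) ∣ m →
          ∃ k, a ≤ k ∧ k + m < a' ∧ e i (k+m) ≠ e i k :=
  Pool.Agent.Chain.ring_pieces hb hα hirr r D B A N δ hδ

end Pool.Agent.Results.MP_0308e6_nt.PiecewisePeriodic
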